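import Pool.Agent.helper70.LE.SpecN

set_option autoImplicit false

namespace Pool.Agent.LE

open Pool.Agent.helper58.DC Pool.Agent.DI Pool.Agent.GR Pool.Agent.OB Pool.Agent.DR Pool.Agent.FI Pool.Agent.FI3 Pool.Agent.FI4

lemma NS2_ext {G : Type} (S T : Set G) (f : G → ℂ) (hST : S ⊆ T) (h : ∀ x ∈ T, x ∉ S → f x = 0) :
    ∑ᶠ x ∈ S, f x = ∑ᶠ x ∈ T, f x := by
  rw [finsum_mem_def, finsum_mem_def]
  congr 1
  funext x
  by_cases hS : x ∈ S
  · rw [Set.indicator_of_mem hS, Set.indicator_of_mem (hST hS)]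
  · rw [Set.indicator_of_notMem hS]
    by_cases hT : x ∈ T
    · rw [Set.indicator_of_mem hT, h x hT hS]
    · rw [Set.indicator_of_notMem hT]

theorem NS2 (hKKF : KKF_stmt) (hKKR : KKR_stmt) : NS2_stmt := by
  intro p M hp G _ _ L e a y hI hN hy hya h0
  obtain ⟨k1, -, -, k4, k5, -, -⟩ := hKKF G L a hN.nor
  have hom := (k5 p e y hy).1
  have hyL : ∀ t : G, t ∈ L ↔ y * t * y⁻¹ ∈ L := fun t => (Subgroup.mem_normalizer_iff.1 hy t)
  -- stability of the coset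
  have hst : ∀ x : G, a⁻¹ * x ∈ L → a⁻¹ * (y * x * y⁻¹) ∈ L := by
    intro x hx
    have h1 := (hyL _).1 hx
    have h2 := L.mul_mem hya h1
    have h3 : a⁻¹ * (y * a * y⁻¹) * (y * (a⁻¹ * x) * y⁻¹) = a⁻¹ * (y * x * y⁻¹) := by group
    rwa [h3] at h2
  have hst' : ∀ x : G, a⁻¹ * x ∈ L → a⁻¹ * (y⁻¹ * x * y) ∈ L := by
    intro x hx
    have h1 : (a⁻¹ * (y * a * y⁻¹))⁻¹ * (a⁻¹ * x) ∈ L := L.mul_mem (L.inv_mem hya) hx
    have h2 : (a⁻¹ * (y * a * y⁻¹))⁻¹ * (a⁻¹ * x) = y * (a⁻¹ * (y⁻¹ * x * y)) * y⁻¹ := by group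
    rw [h2] at h1
    exact (hyL _).2 h1
  have hL : (Nat.card L : ℂ) ≠ 0 := by
    exact_mod_cast (Nat.card_pos (α := L)).ne'
  have hfin : ∀ S : Set G, S.Finite := fun S => Set.toFinite S
  -- the first expansion
  have e1 : ∀ x : G, a⁻¹ * x ∈ L ∧ PReg p x → (Nat.card L : ℂ) * KK L e x (y * x * y⁻¹) =
      ∑ᶠ x' ∈ {x : G | a⁻¹ * x ∈ L ∧ PReg p x}, KK L e x x' * KK L e x' (y * x * y⁻¹) := by
    intro x hx
    have h1 := k1 e e hI.idm.sup hI.cls x (y * x * y⁻¹) hx.1 (hst x hx.1)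
    rw [hI.idm.idem] at h1
    rw [← h1]
    symm
    apply NS2_ext
    · intro z hz
      exact hz.1
    · intro z hz hz'
      have hz2 : ¬ PReg p z := fun h => hz' ⟨hz, h⟩
      rw [hKKR p M hp G L e a hI hN x z hx.1 hz ⟨fun _ => hz2, fun _ => hx.2⟩, zero_mul]
  -- the second
  have e2 : ∀ x' : G, a⁻¹ * x' ∈ L ∧ PReg p x' →
      ∑ᶠ x ∈ {x : G | a⁻¹ * x ∈ L ∧ PReg p x}, KK L e x x' * KK L e x' (y * x * y⁻¹) = 0 := by
    intro x' hx'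
    have h1 : ∀ x : G, KK L e x' (y * x * y⁻¹) = KK L (fun t => e (y * t * y⁻¹)) (y⁻¹ * x' * y) x := by
      intro x
      rw [← k4 e y hy (y⁻¹ * x' * y) x]
      congr 1
      group
    have h2 := k1 (fun t => e (y * t * y⁻¹)) e (by
      intro x hx
      exact hI.idm.sup _ (fun h => hx ((hyL x).2 h))) hI.cls (y⁻¹ * x' * y) x' (hst' x' hx'.1) hx'.1
    rw [h0] at h2
    have h3 : KK L (0 : G → ℂ) (y⁻¹ * x' * y) x' = 0 := by
      unfold KK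
      simp
    rw [h3, mul_zero] at h2
    rw [← h2]
    have h4 : ∑ᶠ x ∈ {x : G | a⁻¹ * x ∈ L ∧ PReg p x}, KK L e x x' * KK L e x' (y * x * y⁻¹) =
        ∑ᶠ x ∈ {x : G | a⁻¹ * x ∈ L ∧ PReg p x},
          KK L (fun t => e (y * t * y⁻¹)) (y⁻¹ * x' * y) x * KK L e x x' := by
      apply finsum_mem_congr rfl
      intro x _
      rw [h1 x, mul_comm]
    rw [h4]
    apply NS2_ext
    · intro z hz
      exact hz.1
    · intro z hz hz'
      have hz2 : ¬ PReg p z := fun h => hz' ⟨hz, h⟩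
      rw [hKKR p M hp G L e a hI hN z x' hz hx'.1 ⟨fun h => absurd h hz2, fun h => absurd hx'.2 h⟩,
        mul_zero]
  have e3 : (Nat.card L : ℂ) *
      (∑ᶠ x ∈ {x : G | a⁻¹ * x ∈ L ∧ PReg p x}, KK L e x (y * x * y⁻¹)) = 0 := by
    have f1 := finsum_mem_congr (rfl : {x : G | a⁻¹ * x ∈ L ∧ PReg p x} = {x : G | a⁻¹ * x ∈ L ∧ PReg p x})
      (fun x hx => e1 x hx)
    have f2 := finsum_mem_congr (rfl : {x : G | a⁻¹ * x ∈ L ∧ PReg p x} = {x : G | a⁻¹ * x ∈ L ∧ PReg p x})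
      (fun x hx => e2 x hx)
    rw [mul_finsum_mem, f1, finsum_mem_comm _ (hfin _) (hfin _), f2]
    simp
  have e4 : (∑ᶠ x ∈ {x : G | a⁻¹ * x ∈ L ∧ PReg p x}, KK L e x (y * x * y⁻¹)) = 0 := by
    rcases mul_eq_zero.1 e3 with h | h
    · exact absurd h hL
    · exact h
  rw [hom, e4, zero_div]

end Pool.Agent.LE
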